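import Mathlib

set_option autoImplicit false

/-! Counting records: the dyadic argument. -/

namespace Pool.Agent.X16.RC

open Finset

/-- the number of positive integers up to `x` with the property `P` -/
noncomputable def cnt (P : ℕ → Prop) (x : ℝ) : ℝ := ({n : ℕ | 1 ≤ n ∧ (n : ℝ) ≤ x ∧ P n}.ncard : ℝ)

/-- the number of integers in `(x/2, x]` with the property `P` -/
noncomputable def blk (P : ℕ → Prop) (x : ℝ) : ℝ := ({n : ℕ | x / 2 < n ∧ (n : ℝ) ≤ x ∧ P n}.ncard : ℝ)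

theorem fin_le (P : ℕ → Prop) (x : ℝ) : {n : ℕ | 1 ≤ n ∧ (n : ℝ) ≤ x ∧ P n}.Finite := by
  apply (Set.finite_Iic ⌊x⌋₊).subset
  rintro n ⟨-, h2, -⟩
  exact Nat.le_floor h2

theorem fin_blk (P : ℕ → Prop) (x : ℝ) : {n : ℕ | x / 2 < n ∧ (n : ℝ) ≤ x ∧ P n}.Finite := by
  apply (Set.finite_Iic ⌊x⌋₊).subset
  rintro n ⟨-, h2, -⟩
  exact Nat.le_floor h2

theorem cnt_split (P : ℕ → Prop) (x : ℝ) : cnt P x ≤ cnt P (x / 2) + blk P x := by
  have h : {n : ℕ | 1 ≤ n ∧ (n : ℝ) ≤ x ∧ P n} ⊆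
      {n : ℕ | 1 ≤ n ∧ (n : ℝ) ≤ x / 2 ∧ P n} ∪ {n : ℕ | x / 2 < n ∧ (n : ℝ) ≤ x ∧ P n} := by
    rintro n ⟨h1, h2, h3⟩
    by_cases h : (n : ℝ) ≤ x / 2
    · exact Or.inl ⟨h1, h, h3⟩
    · exact Or.inr ⟨not_le.1 h, h2, h3⟩
  have h1 := Set.ncard_le_ncard h ((fin_le P _).union (fin_blk P x))
  have h2 := Set.ncard_union_le {n : ℕ | 1 ≤ n ∧ (n : ℝ) ≤ x / 2 ∧ P n}
    {n : ℕ | x / 2 < n ∧ (n : ℝ) ≤ x ∧ P n}
  unfold cnt blk
  exact_mod_cast h1.trans h2

theorem cnt_small (P : ℕ → Prop) {x : ℝ} (hx : x < 2) : cnt P x ≤ 1 := by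
  have h : {n : ℕ | 1 ≤ n ∧ (n : ℝ) ≤ x ∧ P n} ⊆ {1} := by
    rintro n ⟨h1, h2, -⟩
    have : (n : ℝ) < 2 := lt_of_le_of_lt h2 hx
    have : n < 2 := by exact_mod_cast this
    simp only [Set.mem_singleton_iff]; omega
  have h1 := Set.ncard_le_ncard h (Set.finite_singleton _)
  rw [Set.ncard_singleton] at h1
  unfold cnt
  exact_mod_cast h1

/-- the dyadic induction -/
theorem dyadic {P : ℕ → Prop} {A η : ℝ} (hη : 0 < η) (hA : 0 ≤ A)
    (h : ∀ x : ℝ, 2 ≤ x → blk P x ≤ A * x ^ η) :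
    ∃ C : ℝ, 0 < C ∧ ∀ x : ℝ, 1 ≤ x → cnt P x ≤ C * x ^ η := by
  have hq : (2 : ℝ) ^ (-η) < 1 := Real.rpow_lt_one_of_one_lt_of_neg (by norm_num) (by linarith)
  have hq0 : 0 < (2 : ℝ) ^ (-η) := by positivity
  set q := (2 : ℝ) ^ (-η) with hqd
  set C := A / (1 - q) + 1 with hC
  have h1q : 0 < 1 - q := by linarith
  have hAC : C * q + A ≤ C := by
    have : C * (1 - q) = A + (1 - q) := by rw [hC]; field_simp
    nlinarith
  have hC1 : 1 ≤ C := by
    have : 0 ≤ A / (1 - q) := by positivity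
    linarith
  refine ⟨C, by linarith, ?_⟩
  have key : ∀ (j : ℕ) (x : ℝ), 1 ≤ x → x < 2 ^ j → cnt P x ≤ C * x ^ η := by
    intro j
    induction j with
    | zero =>
      intro x h1 h2
      norm_num at h2
      linarith
    | succ j ih =>
      intro x h1 h2
      by_cases hx : x < 2
      · have h3 : 1 ≤ x ^ η := Real.one_le_rpow h1 hη.le
        have := cnt_small P hx
        nlinarith
      · push Not at hx
        have h3 := ih (x / 2) (by linarith) (by rw [pow_succ] at h2; linarith)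
        have h4 := cnt_split P x
        have h5 := h x hx
        have h6 : (x / 2) ^ η = x ^ η * q := by
          rw [Real.div_rpow (by linarith) (by norm_num), hqd, Real.rpow_neg (by norm_num)]
          rfl
        rw [h6] at h3
        have h7 : 0 ≤ x ^ η := by positivity
        have h8 := mul_le_mul_of_nonneg_right hAC h7
        nlinarith
  intro x hx
  obtain ⟨j, hj⟩ := pow_unbounded_of_one_lt x (show (1 : ℝ) < 2 by norm_num)
  exact key j x hx hj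

/-- powers of the logarithm are small -/
theorem log_pow_le {δ : ℝ} (hδ : 0 < δ) (k : ℕ) : ∃ K : ℝ, 0 < K ∧ ∀ x : ℝ, 1 ≤ x →
    Real.log x ^ k ≤ K * x ^ δ := by
  refine ⟨(((k : ℝ) + 1) / δ) ^ k, by positivity, fun x hx => ?_⟩
  have h1 : Real.log x ≤ x ^ (δ / (k + 1)) / (δ / (k + 1)) :=
    Real.log_le_rpow_div (by linarith) (by positivity)
  have h2 : 0 ≤ Real.log x := Real.log_nonneg hx
  have h3 := pow_le_pow_left₀ h2 h1 k
  refine h3.trans ?_
  rw [div_pow, ← Real.rpow_natCast (x ^ (δ / ((k : ℝ) + 1))), ← Real.rpow_mul (by linarith)]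
  have h4 : x ^ (δ / ((k : ℝ) + 1) * k) ≤ x ^ δ := by
    apply Real.rpow_le_rpow_of_exponent_le hx
    rw [div_mul_eq_mul_div, div_le_iff₀ (by positivity)]
    nlinarith
  have h5 : (0 : ℝ) < (δ / ((k : ℝ) + 1)) ^ k := by positivity
  rw [div_le_iff₀ h5, mul_assoc, mul_comm (x ^ δ), ← mul_assoc, ← mul_pow]
  have h6 : ((k : ℝ) + 1) / δ * (δ / ((k : ℝ) + 1)) = 1 := by field_simp
  rw [h6, one_pow, one_mul]
  exact h4

end Pool.Agent.X16.RC
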