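import Pool.Agent.X16.RC.A

set_option autoImplicit false

/-! Records of weighted total stopping times. -/

namespace Pool.Agent.X16.RC

open Finset

/-- the `3x+1` function -/
def T (n : ℕ) : ℕ := if n % 2 = 0 then n / 2 else (3 * n + 1) / 2

/-- `u` for each even and `v` for each odd term among `n, T n, ..., T^(k-1) n` -/
def cost (u v k n : ℕ) : ℕ := ∑ j ∈ range k, if T^[j] n % 2 = 0 then u else v

/-- `k` is the total stopping time of `n` -/
def IsTime (n k : ℕ) : Prop := IsLeast {j : ℕ | T^[j] n = 1} k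

/-- `n` is a record holder of the weighted total stopping time -/
def IsRecord (u v n : ℕ) : Prop :=
  ∃ k, IsTime n k ∧ ∀ m, 1 ≤ m → m < n → ∃ l, IsTime m l ∧ cost u v l m < cost u v k n

theorem cost_add (u v m l n : ℕ) : cost u v (m + l) n = cost u v m n + cost u v l (T^[m] n) := by
  unfold cost
  rw [Finset.sum_range_add]
  congr 1
  apply Finset.sum_congr rfl
  intro j _
  rw [← Function.iterate_add_apply, Nat.add_comm j m]

theorem cost_le (u v k n : ℕ) : cost u v k n ≤ (u + v) * k := by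
  unfold cost
  have : ∑ j ∈ range k, (if T^[j] n % 2 = 0 then u else v) ≤ ∑ _j ∈ range k, (u + v) := by
    apply Finset.sum_le_sum
    intro j _
    split_ifs <;> omega
  simpa [mul_comm] using this

theorem time_pos {n k : ℕ} (h : IsTime n k) : 1 ≤ n := by
  by_contra h0
  have h1 : n = 0 := by omega
  subst h1
  have h2 : ∀ j, T^[j] 0 = 0 := by
    intro j
    induction j with
    | zero => rfl
    | succ j ih => rw [Function.iterate_succ_apply', ih]; rfl
  have h3 := h.1
  simp only [Set.mem_ofPred_eq] at h3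
  rw [h2] at h3
  omega

theorem iter_pos {n : ℕ} (hn : 1 ≤ n) (m : ℕ) : 1 ≤ T^[m] n := by
  induction m with
  | zero => exact hn
  | succ m ih =>
    rw [Function.iterate_succ_apply']
    unfold T at *
    split_ifs <;> omega

theorem time_unique {n k l : ℕ} (h : IsTime n k) (h' : IsTime n l) : k = l :=
  IsLeast.unique h h'

/-- the time after `m` steps -/
theorem time_shift {n k m : ℕ} (h : IsTime n k) (hm : m ≤ k) : IsTime (T^[m] n) (k - m) := by
  constructor
  · simp only [Set.mem_ofPred_eq]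
    rw [← Function.iterate_add_apply, Nat.sub_add_cancel hm]
    exact h.1
  · intro j hj
    simp only [Set.mem_ofPred_eq] at hj
    rw [← Function.iterate_add_apply] at hj
    have := h.2 hj
    omega

/-- the weighted total stopping time -/
noncomputable def total (u v n : ℕ) : ℕ := cost u v (sInf {j : ℕ | T^[j] n = 1}) n

theorem total_eq {u v n k : ℕ} (h : IsTime n k) : total u v n = cost u v k n := by
  unfold total
  rw [h.csInf_eq]

theorem record_iff {u v n : ℕ} (h : IsRecord u v n) : (∃ k, IsTime n k) ∧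
    ∀ m, 1 ≤ m → m < n → (∃ l, IsTime m l) ∧ total u v m < total u v n := by
  obtain ⟨k, hk, h⟩ := h
  refine ⟨⟨k, hk⟩, fun m h1 h2 => ?_⟩
  obtain ⟨l, hl, hlt⟩ := h m h1 h2
  exact ⟨⟨l, hl⟩, by rw [total_eq hl, total_eq hk]; exact hlt⟩

/-- The records in `(x/2, x]` which get to `y ≤ x/2` within `M` steps are few. -/
theorem few {u v M : ℕ} {x y : ℝ} (hy : y ≤ x / 2) (hx : 0 < x) :
    ({n : ℕ | x / 2 < n ∧ (n : ℝ) ≤ x ∧ IsRecord u v n ∧ ∃ m, m ≤ M ∧ ((T^[m] n : ℕ) : ℝ) ≤ y}.ncard) ≤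
      (u + v) * M + 1 := by
  classical
  set S := {n : ℕ | x / 2 < n ∧ (n : ℝ) ≤ x ∧ IsRecord u v n ∧ ∃ m, m ≤ M ∧ ((T^[m] n : ℕ) : ℝ) ≤ y}
    with hS
  rcases S.eq_empty_or_nonempty with h0 | h0
  · rw [h0]; simp
  set n₁ := sInf S with hn₁
  have h1 : n₁ ∈ S := Nat.sInf_mem h0
  have hmap : ∀ n ∈ S, total u v n ∈ (Set.Icc (total u v n₁) (total u v n₁ + (u + v) * M) : Set ℕ) := by
    intro n hn
    have hle : n₁ ≤ n := Nat.sInf_le hn
    obtain ⟨hn1, hn2, hn3, m, hm, hmy⟩ := hn
    obtain ⟨⟨k, hk⟩, hrec⟩ := record_iff hn3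
    constructor
    · rcases hle.eq_or_lt with h | h
      · rw [← h]
      · have h2 : 1 ≤ n₁ := by
          have : (0 : ℝ) < n₁ := lt_of_le_of_lt (by positivity) h1.1
          exact_mod_cast this
        exact (hrec n₁ h2 h).2.le
    · rw [total_eq hk]
      by_cases hmk : m ≤ k
      · have h2 := time_shift hk hmk
        have h3 : cost u v k n = cost u v m n + cost u v (k - m) (T^[m] n) := by
          rw [← cost_add, Nat.add_sub_cancel' hmk]
        rw [h3, ← total_eq h2]
        have h4 : T^[m] n < n₁ := by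
          have : ((T^[m] n : ℕ) : ℝ) < n₁ := lt_of_le_of_lt (hmy.trans hy) h1.1
          exact_mod_cast this
        have h5 := ((record_iff h1.2.2.1).2 _ (iter_pos (time_pos hk) m) h4).2
        have h6 := cost_le u v m n
        have h7 : (u + v) * m ≤ (u + v) * M := Nat.mul_le_mul_left _ hm
        omega
      · have h6 := cost_le u v k n
        have h7 : (u + v) * k ≤ (u + v) * M := Nat.mul_le_mul_left _ (by omega)
        omega
  have hinj : Set.InjOn (total u v) S := by
    intro a ha b hb hab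
    by_contra hne
    rcases Nat.lt_or_gt_of_ne hne with h | h
    · have := ((record_iff hb.2.2.1).2 a (time_pos (record_iff ha.2.2.1).1.choose_spec) h).2
      omega
    · have := ((record_iff ha.2.2.1).2 b (time_pos (record_iff hb.2.2.1).1.choose_spec) h).2
      omega
  have h2 := Set.ncard_le_ncard_of_injOn (total u v) hmap hinj (Set.finite_Icc _ _)
  refine h2.trans ?_
  rw [← Nat.card_coe_set_eq, Nat.card_eq_fintype_card]
  simp
  omega

/-- The trajectory of `n` gets to `y` within `B log n` steps. -/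
def Fast (B y : ℝ) (n : ℕ) : Prop := ∃ m : ℕ, ((T^[m] n : ℕ) : ℝ) ≤ y ∧ (m : ℝ) ≤ B * Real.log n

/-- The number of the records up to `x`, from the number of the exceptions. -/
theorem count_records {B c C H : ℝ} {k : ℕ} (hB : 0 ≤ B) (hC : 0 < C) (hH : 0 < H) (hc : 1 - H < c)
    (hL : ∀ x y : ℝ, 2 ≤ x → 1 ≤ y →
      ({n : ℕ | 1 ≤ n ∧ (n : ℝ) ≤ x ∧ ¬ Fast B y n}.ncard : ℝ) ≤ C * Real.log x ^ k * (x / y ^ c)) :
    ∃ η : ℝ, 0 < η ∧ η < H ∧ ∀ u v : ℕ, ∃ K : ℝ, 0 < K ∧ ∀ x : ℝ, 1 ≤ x →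
      ({n : ℕ | 1 ≤ n ∧ (n : ℝ) ≤ x ∧ IsRecord u v n}.ncard : ℝ) ≤ K * x ^ η := by
  set δ := (H - (1 - c)) / 2 with hδ
  have hδ0 : 0 < δ := by rw [hδ]; linarith
  set η := max (1 - c + δ) (H / 2) with hη
  have hη0 : 0 < η := lt_of_lt_of_le (by linarith) (le_max_right _ _)
  have hηH : η < H := max_lt (by rw [hδ]; linarith) (by linarith)
  obtain ⟨K₁, hK₁, h1⟩ := log_pow_le (show 0 < H / 2 by linarith) 1
  obtain ⟨K₂, hK₂, h2⟩ := log_pow_le hδ0 k
  refine ⟨η, hη0, hηH, fun u v => ?_⟩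
  have hblk : ∀ x : ℝ, 2 ≤ x → blk (IsRecord u v) x ≤
      ((u + v) * B * K₁ + 1 + C * 4 ^ c * K₂ + 5) * x ^ η := by
    intro x hx
    have hx0 : 0 < x := by linarith
    have hxη : 1 ≤ x ^ η := Real.one_le_rpow (by linarith) hη0.le
    have hlog : 0 ≤ Real.log x := Real.log_nonneg (by linarith)
    have hA1 : 0 ≤ (u + v) * B * K₁ := by positivity
    have hA2 : 0 ≤ C * 4 ^ c * K₂ := by positivity
    by_cases h4 : x < 4
    · have hsub : {n : ℕ | x / 2 < n ∧ (n : ℝ) ≤ x ∧ IsRecord u v n} ⊆ Set.Iic 4 := by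
        rintro n ⟨-, hn, -⟩
        have : (n : ℝ) < 4 := lt_of_le_of_lt hn h4
        have : n < 4 := by exact_mod_cast this
        exact this.le
      have h5 := Set.ncard_le_ncard hsub (Set.finite_Iic 4)
      have h6 : (Set.Iic 4 : Set ℕ).ncard = 5 := by
        rw [← Nat.card_coe_set_eq, Nat.card_eq_fintype_card]; simp
      rw [h6] at h5
      have h7 : blk (IsRecord u v) x ≤ 5 := by unfold blk; exact_mod_cast h5
      nlinarith
    · push Not at h4
      set M := ⌊B * Real.log x⌋₊ with hM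
      have hBl : 0 ≤ B * Real.log x := by positivity
      have hsub : {n : ℕ | x / 2 < n ∧ (n : ℝ) ≤ x ∧ IsRecord u v n} ⊆
          {n : ℕ | x / 2 < n ∧ (n : ℝ) ≤ x ∧ IsRecord u v n ∧ ∃ m, m ≤ M ∧ ((T^[m] n : ℕ) : ℝ) ≤ x / 4} ∪
            {n : ℕ | 1 ≤ n ∧ (n : ℝ) ≤ x ∧ ¬ Fast B (x / 4) n} := by
        rintro n ⟨h5, h6, h7⟩
        have hn0 : (0 : ℝ) < n := by linarith
        by_cases h8 : Fast B (x / 4) n
        · left
          obtain ⟨m, h9, h10⟩ := h8
          refine ⟨h5, h6, h7, m, ?_, h9⟩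
          apply Nat.le_floor
          refine h10.trans (mul_le_mul_of_nonneg_left ?_ hB)
          exact Real.log_le_log hn0 h6
        · right
          exact ⟨by exact_mod_cast hn0, h6, h8⟩
      have hf1 : {n : ℕ | x / 2 < n ∧ (n : ℝ) ≤ x ∧ IsRecord u v n ∧
          ∃ m, m ≤ M ∧ ((T^[m] n : ℕ) : ℝ) ≤ x / 4}.Finite := fin_blk _ x
      have hf2 := fin_le (fun n => ¬ Fast B (x / 4) n) x
      have h5 := Set.ncard_le_ncard hsub (hf1.union hf2)
      have h6 := h5.trans (Set.ncard_union_le _ _)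
      have h7 := few (u := u) (v := v) (M := M) (y := x / 4) (by linarith) hx0
      have h8 : (({n : ℕ | x / 2 < n ∧ (n : ℝ) ≤ x ∧ IsRecord u v n}.ncard : ℕ) : ℝ) ≤
          ((u + v) * M + 1 : ℕ) + ({n : ℕ | 1 ≤ n ∧ (n : ℝ) ≤ x ∧ ¬ Fast B (x / 4) n}.ncard : ℝ) := by
        exact_mod_cast h6.trans (Nat.add_le_add_right h7 _)
      have h9 := hL x (x / 4) hx (by linarith)
      have h10 : (M : ℝ) ≤ B * Real.log x := Nat.floor_le hBl
      have h11 : Real.log x ≤ K₁ * x ^ η := by
        have h12 := h1 x (by linarith)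
        rw [pow_one] at h12
        refine h12.trans (mul_le_mul_of_nonneg_left ?_ hK₁.le)
        exact Real.rpow_le_rpow_of_exponent_le (by linarith) (le_max_right _ _)
      have h12 : x / (x / 4) ^ c = 4 ^ c * x ^ (1 - c) := by
        rw [Real.div_rpow hx0.le (by norm_num), Real.rpow_sub hx0, Real.rpow_one]
        have := (Real.rpow_pos_of_pos hx0 c).ne'
        have h4c : (4 : ℝ) ^ c ≠ 0 := (Real.rpow_pos_of_pos (by norm_num) c).ne'
        field_simp
      have h13 : C * Real.log x ^ k * (x / (x / 4) ^ c) ≤ C * 4 ^ c * K₂ * x ^ η := by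
        rw [h12]
        have h14 := h2 x (by linarith)
        have h15 : x ^ δ * x ^ (1 - c) ≤ x ^ η := by
          rw [← Real.rpow_add hx0]
          apply Real.rpow_le_rpow_of_exponent_le (by linarith)
          have := le_max_left (1 - c + δ) (H / 2)
          linarith
        calc C * Real.log x ^ k * (4 ^ c * x ^ (1 - c))
            ≤ C * (K₂ * x ^ δ) * (4 ^ c * x ^ (1 - c)) := by gcongr
          _ = C * 4 ^ c * K₂ * (x ^ δ * x ^ (1 - c)) := by ring
          _ ≤ C * 4 ^ c * K₂ * x ^ η := by gcongr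
      unfold blk
      refine h8.trans ?_
      push_cast
      have h16 : ((u : ℝ) + v) * M ≤ (u + v) * B * K₁ * x ^ η := by
        calc ((u : ℝ) + v) * M ≤ (u + v) * (B * Real.log x) := by gcongr
          _ ≤ (u + v) * (B * (K₁ * x ^ η)) := by gcongr
          _ = (u + v) * B * K₁ * x ^ η := by ring
      nlinarith
  obtain ⟨K, hK, h⟩ := dyadic hη0 (by positivity) hblk
  exact ⟨K, hK, h⟩

end Pool.Agent.X16.RC
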