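import Pool.Agent.H395R2.G3.Main

/-! Long total stopping times near every large number. -/

set_option autoImplicit false

namespace Pool.Agent.X16.RC

open Finset Filter Pool.Agent.H422R2.QA Pool.Agent.H412R2 Pool.Agent.H395R2.G3

/-- For all large `x` there is a `y` in `[x^(1-ε), x]` whose total stopping time is
`(α + O(ε)) log y`. -/
theorem near {α : ℝ} (hα : 1 / Real.log 2 < α) (hF : 0 < FF (rr α)) {ε : ℝ} (hε : 0 < ε) :
    ∃ X₀ : ℝ, ∀ x : ℝ, X₀ ≤ x → ∃ y : ℕ, 2 ≤ y ∧ (y : ℝ) ≤ x ∧ (1 - ε) * Real.log x ≤ Real.log y ∧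
      ∃ k : ℕ, IsLeast {k : ℕ | fT^[k] y = 1} k ∧ |(k : ℝ) / Real.log y - α| ≤ ε := by
  have hl2 : 0 < Real.log 2 := Real.log_pos (by norm_num)
  have hα0 : 0 < α := lt_trans (by positivity) hα
  set r := rr α with hr
  have hr0 : 0 < r := rr_pos hα
  have hr1 : r < 1 := rr_lt_one hα0
  set lam : ℝ := 1 / (α * r) with hlam
  have hlam0 : 0 < lam := by positivity
  -- choice of δ
  set δ : ℝ := min (lam / 4) (min (ε * lam / 4 / α) (ε * lam / 8)) with hδ
  have hδ0 : 0 < δ := lt_min (by positivity) (lt_min (by positivity) (by positivity))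
  have hδ1 : δ ≤ lam / 4 := min_le_left _ _
  have hδ2 : δ * α ≤ ε * lam / 4 := by
    have h1 : δ ≤ ε * lam / 4 / α := (min_le_right _ _).trans (min_le_left _ _)
    rwa [le_div_iff₀ hα0] at h1
  have hδ3 : δ ≤ ε * lam / 8 := (min_le_right _ _).trans (min_le_right _ _)
  obtain ⟨E, n₀, hwords⟩ := words hr0 hr1 hF hδ0
  obtain ⟨n₁, hn₁⟩ := log_small (show 0 < lam / 4 by positivity) 0
  obtain ⟨n₂, hn₂⟩ := log_small (show 0 < ε * lam / 2 / (α + ε) by positivity)
    ((3 + α * Real.log 8) / (α + ε))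
  obtain ⟨n₃, hn₃⟩ := log_small hδ0 0
  set N : ℕ := max (max 1 n₃) (max n₀ (max n₁ n₂)) with hN
  set L₀ : ℝ := max ((lam + δ) * (N + 1) + Real.log 8) (2 * (Real.log 8 + lam + δ) / ε) with hL₀
  refine ⟨Real.exp L₀, fun x hx => ?_⟩
  have hx0 : 0 < x := lt_of_lt_of_le (Real.exp_pos _) hx
  have hL : L₀ ≤ Real.log x := by
    rw [Real.le_log_iff_exp_le hx0]
    exact hx
  have hL1 := (le_max_left _ _).trans hL
  have hL2 := (le_max_right _ _).trans hL
  have hld : 0 < lam + δ := by positivity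
  set n : ℕ := ⌊(Real.log x - Real.log 8) / (lam + δ)⌋₊ with hn
  have hq0 : 0 ≤ (Real.log x - Real.log 8) / (lam + δ) := by
    apply div_nonneg _ hld.le
    have : 0 ≤ (lam + δ) * (N + 1) := by positivity
    linarith
  have hnle : (n : ℝ) * (lam + δ) ≤ Real.log x - Real.log 8 := by
    rw [← le_div_iff₀ hld]
    exact Nat.floor_le hq0
  have hnge : Real.log x - Real.log 8 < (n + 1) * (lam + δ) := by
    rw [← div_lt_iff₀ hld]
    exact Nat.lt_floor_add_one _
  have hNn : N ≤ n := by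
    have h1 : ((N : ℝ) + 1) * (lam + δ) < (n + 1) * (lam + δ) := by linarith
    have h2 : (N : ℝ) + 1 < n + 1 := lt_of_mul_lt_mul_right h1 hld.le
    have h3 : (N : ℝ) < n := by linarith
    exact_mod_cast h3.le
  have hn0 : 1 ≤ n := ((le_max_left _ _).trans (le_max_left _ _)).trans hNn
  have hn03 : n₃ ≤ n := ((le_max_right _ _).trans (le_max_left _ _)).trans hNn
  have hn00 : n₀ ≤ n := ((le_max_left _ _).trans (le_max_right _ _)).trans hNn
  have hn01 : n₁ ≤ n := (((le_max_left _ _).trans (le_max_right _ _)).trans (le_max_right _ _)).trans hNn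
  have hn02 : n₂ ≤ n := (((le_max_right _ _).trans (le_max_right _ _)).trans (le_max_right _ _)).trans hNn
  obtain ⟨s, hs1, hs2⟩ := hwords n hn00
  have hne : (tr 3 E n s 8).Nonempty := by
    rw [← Finset.card_pos]
    have : (0 : ℝ) < ((tr 3 E n s 8).card : ℝ) := lt_of_lt_of_le (Real.exp_pos _) hs2
    exact_mod_cast this
  obtain ⟨z, hz⟩ := hne
  obtain ⟨-, h2y, hyx, k, hk, hkα⟩ := mem_SetLD hα0 hr0 hε (rr_spec α) hz hs1 hδ0.le hδ1 hδ2
    (hn₁ n hn01) hn0 (hn₂ n hn02) hx0 (by linarith)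
  refine ⟨z.toNat, h2y, hyx, ?_, k, hk, hkα⟩
  obtain ⟨y, rfl, hy1, hleast, hup, hlow⟩ := tr_eight hz
  rw [Int.toNat_natCast]
  obtain ⟨hY1, hY2⟩ := log_node hα0 hr0 (rr_spec α) hy1 hup hlow
  rw [← hlam] at hY2
  have hl2' : Real.log 2 < 1 := by
    have := Real.log_two_lt_d9
    linarith
  obtain ⟨hd1, hd2⟩ := abs_le.1 hs1
  have hn' : (1 : ℝ) ≤ n := by exact_mod_cast hn0
  have hdn : 0 ≤ δ * n := by positivity
  have hdl2 : -(δ * n) ≤ ((s : ℝ) - n / r) * Real.log 2 := by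
    have h1 : -(δ * n) * Real.log 2 ≤ ((s : ℝ) - n / r) * Real.log 2 :=
      mul_le_mul_of_nonneg_right hd1 hl2.le
    have h2 : δ * n * Real.log 2 ≤ δ * n * 1 := mul_le_mul_of_nonneg_left hl2'.le hdn
    linarith
  have h3 := hn₃ n hn03
  have hl8 : 0 ≤ Real.log 8 := Real.log_nonneg (by norm_num)
  have h4 : lam * n - 2 * (δ * n) + Real.log 8 ≤ Real.log y := by linarith
  -- `λ n - 2 δ n ≥ (1 - ε/2) (λ + δ) n`
  have h5 : 3 * δ ≤ ε / 2 * (lam + δ) := by nlinarith
  have h6 : (1 - ε / 2) * ((lam + δ) * n) ≤ lam * n - 2 * (δ * n) := by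
    have h7 := mul_le_mul_of_nonneg_right h5 (show (0 : ℝ) ≤ n by linarith)
    nlinarith
  have h8 : Real.log 8 + lam + δ ≤ ε / 2 * Real.log x := by
    rw [div_le_iff₀ hε] at hL2
    linarith
  have hlogx : 0 ≤ Real.log x := by
    have h1 : 0 ≤ (lam + δ) * (N + 1) := by positivity
    linarith
  by_cases hε2 : ε / 2 ≤ 1
  · have h9 : (1 - ε / 2) * (Real.log x - Real.log 8 - (lam + δ)) ≤ (1 - ε / 2) * ((lam + δ) * n) := by
      apply mul_le_mul_of_nonneg_left _ (by linarith)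
      linarith
    have h10 : (1 - ε / 2) * (Real.log x - ε / 2 * Real.log x) ≤
        (1 - ε / 2) * (Real.log x - Real.log 8 - (lam + δ)) := by
      apply mul_le_mul_of_nonneg_left _ (by linarith)
      linarith
    nlinarith [mul_nonneg (sq_nonneg ε) hlogx]
  · push Not at hε2
    have h9 : 0 ≤ Real.log y := Real.log_nonneg (by exact_mod_cast hy1)
    nlinarith

end Pool.Agent.X16.RC
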