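import Pool.Agent.X16.RC.B
import Pool.Agent.X16.RC.G

/-! Delay records are large. -/

set_option autoImplicit false

namespace Pool.Agent.X16.RC

open Pool.Agent.H395R2.G3

theorem fT_eq : fT = T := rfl

/-- For all large `n` some `m ≤ n` has a total stopping time `≥ (γ - ε) log n`. -/
theorem large_time {γ : ℝ} (hγ1 : 1 / Real.log 2 < γ)
    (hpos : ∀ α : ℝ, 1 / Real.log 2 < α → α < γ → 0 < FF (rr α)) {ε : ℝ} (hε : 0 < ε) :
    ∃ N : ℕ, ∀ n : ℕ, N ≤ n → ∃ m k : ℕ, 1 ≤ m ∧ m ≤ n ∧ IsTime m k ∧ (γ - ε) * Real.log n ≤ k := by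
  have hl2 : 0 < Real.log 2 := Real.log_pos (by norm_num)
  have hγ0 : 0 < γ := lt_trans (by positivity) hγ1
  set α : ℝ := max (γ - ε / 4) ((1 / Real.log 2 + γ) / 2) with hα
  have hα1 : 1 / Real.log 2 < α := lt_of_lt_of_le (by linarith) (le_max_right _ _)
  have hα2 : α < γ := max_lt (by linarith) (by linarith)
  have hα3 : γ - ε / 4 ≤ α := le_max_left _ _
  have hα0 : 0 < α := lt_trans (by positivity) hα1
  set δ : ℝ := min (ε / 4) (min (ε / (4 * γ)) (α / 2)) with hδ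
  have hδ0 : 0 < δ := lt_min (by positivity) (lt_min (by positivity) (by positivity))
  have hδ1 : δ ≤ ε / 4 := min_le_left _ _
  have hδ2 : δ * γ ≤ ε / 4 := by
    have h1 : δ ≤ ε / (4 * γ) := (min_le_right _ _).trans (min_le_left _ _)
    rw [le_div_iff₀ (by positivity)] at h1
    linarith
  have hδ3 : δ ≤ α / 2 := (min_le_right _ _).trans (min_le_right _ _)
  obtain ⟨X₀, hX₀⟩ := near hα1 (hpos α hα1 hα2) hδ0
  refine ⟨max ⌈X₀⌉₊ 1, fun n hn => ?_⟩
  have hn1 : 1 ≤ n := (le_max_right _ _).trans hn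
  have hnX : X₀ ≤ n := (Nat.le_ceil _).trans (by exact_mod_cast (le_max_left _ _).trans hn)
  obtain ⟨y, hy2, hyn, hlog, k, hk, hkα⟩ := hX₀ n hnX
  refine ⟨y, k, by omega, by exact_mod_cast hyn, hk, ?_⟩
  have hlogy : 0 < Real.log y := Real.log_pos (by exact_mod_cast hy2)
  have hlogn : 0 ≤ Real.log n := Real.log_nonneg (by exact_mod_cast hn1)
  have h1 := (abs_le.1 hkα).1
  have h2 : α - δ ≤ (k : ℝ) / Real.log y := by linarith
  rw [le_div_iff₀ hlogy] at h2
  have h3 : (α - δ) * ((1 - δ) * Real.log n) ≤ (α - δ) * Real.log y :=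
    mul_le_mul_of_nonneg_left hlog (by linarith)
  have h4 : γ - ε ≤ (α - δ) * (1 - δ) := by
    have h5 : (α - δ) * δ ≤ γ * δ := mul_le_mul_of_nonneg_right (by linarith) hδ0.le
    nlinarith
  have h5 := mul_le_mul_of_nonneg_right h4 hlogn
  linarith

/-- Large delay records have large total stopping times. -/
theorem record_large {γ ε : ℝ} {N : ℕ} (h : ∀ n : ℕ, N ≤ n → ∃ m k : ℕ, 1 ≤ m ∧ m ≤ n ∧ IsTime m k ∧
    (γ - ε) * Real.log n ≤ k) {n : ℕ} (hn : N ≤ n) (hr : IsRecord 1 1 n) {k : ℕ} (hk : IsTime n k) :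
    (γ - ε) * Real.log n ≤ k := by
  obtain ⟨m, l, hm1, hmn, hl, hle⟩ := h n hn
  have hc : ∀ j a : ℕ, cost 1 1 j a = j := by
    intro j a
    unfold cost
    simp
  rcases hmn.eq_or_lt with rfl | hlt
  · rw [time_unique hk hl]; exact hle
  · obtain ⟨k', hk', hrec⟩ := hr
    obtain ⟨l', hl', hlt'⟩ := hrec m hm1 hlt
    rw [hc, hc] at hlt'
    rw [time_unique hl hl'] at hle
    rw [time_unique hk hk']
    exact hle.trans (by exact_mod_cast hlt'.le)

end Pool.Agent.X16.RC
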