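import Pool.Agent.X16.RC.B

set_option autoImplicit false

/-! Record holders of the maximum excursion. -/

namespace Pool.Agent.X16.RC

open Finset

/-- the maximum excursion -/
noncomputable def t (n : ℕ) : ℕ∞ := ⨆ k : ℕ, ((T^[k] n : ℕ) : ℕ∞)

/-- `n` is a record holder of the maximum excursion -/
def IsRec (n : ℕ) : Prop := 1 ≤ n ∧ ∀ m, 1 ≤ m → m < n → t m < t n

theorem le_t (k n : ℕ) : ((T^[k] n : ℕ) : ℕ∞) ≤ t n := le_iSup (fun k => ((T^[k] n : ℕ) : ℕ∞)) k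

theorem t_le {m n V : ℕ} (h : ∀ j ≤ m, T^[j] n ≤ V) : t n ≤ max (V : ℕ∞) (t (T^[m] n)) := by
  apply iSup_le
  intro k
  by_cases hk : k ≤ m
  · exact le_max_of_le_left (by exact_mod_cast h k hk)
  · apply le_max_of_le_right
    have h1 : T^[k] n = T^[k - m] (T^[m] n) := by
      rw [← Function.iterate_add_apply, Nat.sub_add_cancel (by omega)]
    rw [h1]
    exact le_t _ _

theorem mersenne (j i : ℕ) : T^[j] (3 ^ i * 2 ^ j - 1) = 3 ^ (i + j) - 1 := by
  induction j generalizing i with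
  | zero => simp
  | succ j ih =>
    rw [Function.iterate_succ_apply]
    have h1 : 1 ≤ 3 ^ i * 2 ^ j := Nat.one_le_iff_ne_zero.2 (by positivity)
    have h2 : 3 ^ i * 2 ^ (j + 1) = 2 * (3 ^ i * 2 ^ j) := by ring
    have h3 : 3 ^ (i + 1) * 2 ^ j = 3 * (3 ^ i * 2 ^ j) := by ring
    have h4 : T (3 ^ i * 2 ^ (j + 1) - 1) = 3 ^ (i + 1) * 2 ^ j - 1 := by
      rw [h2, h3]
      generalize 3 ^ i * 2 ^ j = q at h1
      unfold T
      rw [if_neg (by omega)]
      omega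
    rw [h4, ih (i + 1)]
    congr 2
    omega

theorem mersenne_t (a : ℕ) : ((3 ^ a - 1 : ℕ) : ℕ∞) ≤ t (2 ^ a - 1) := by
  have h := le_t a (2 ^ a - 1)
  have h1 := mersenne a 0
  rw [pow_zero, one_mul, zero_add] at h1
  rwa [h1] at h

/-- the power of two next to `n` -/
theorem exists_pow {n : ℕ} (hn : 1 ≤ n) : ∃ a : ℕ, 1 ≤ a ∧ 2 ^ a ≤ n + 1 ∧ n + 1 < 2 ^ (a + 1) := by
  refine ⟨Nat.log 2 (n + 1), ?_, Nat.pow_log_le_self 2 (by omega), Nat.lt_pow_succ_log_self (by norm_num) _⟩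
  rw [Nat.one_le_iff_ne_zero, ← Nat.pos_iff_ne_zero]
  exact Nat.log_pos (by norm_num) (by omega)

/-- between two record holders the excursions are at most that of the first one -/
theorem le_record {r n : ℕ} (hr : IsRec r) (h : ∀ m, r < m → m ≤ n → ¬ IsRec m) :
    ∀ m, 1 ≤ m → m ≤ n → t m ≤ t r := by
  intro m
  induction m using Nat.strong_induction_on with
  | _ m ih =>
    intro h1 h2
    rcases lt_trichotomy m r with h3 | rfl | h3
    · exact (hr.2 m h1 h3).le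
    · exact le_rfl
    · have h4 := h m h3 h2
      unfold IsRec at h4
      push Not at h4
      obtain ⟨l, hl1, hl2, hl3⟩ := h4 h1
      exact hl3.trans (ih l hl2 hl1 (by omega))

theorem pow_le {n a : ℕ} (h : n + 1 < 2 ^ (a + 1)) :
    (n : ℝ) ^ (Real.log 3 / Real.log 2) ≤ 3 * 3 ^ a := by
  have hl2 : 0 < Real.log 2 := Real.log_pos (by norm_num)
  have hl3 : 0 < Real.log 3 := Real.log_pos (by norm_num)
  have h1 : (n : ℝ) ≤ 2 ^ (a + 1) := by
    have : n ≤ 2 ^ (a + 1) := by omega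
    exact_mod_cast this
  calc (n : ℝ) ^ (Real.log 3 / Real.log 2) ≤ ((2 : ℝ) ^ (a + 1)) ^ (Real.log 3 / Real.log 2) :=
        Real.rpow_le_rpow (by positivity) h1 (by positivity)
    _ = 3 * 3 ^ a := by
        rw [Real.rpow_def_of_pos (by positivity), Real.log_pow]
        have : ((a + 1 : ℕ) : ℝ) * Real.log 2 * (Real.log 3 / Real.log 2) = Real.log (3 ^ (a + 1)) := by
          rw [Real.log_pow]; field_simp
        rw [this, Real.exp_log (by positivity)]
        ring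

/-- a record holder has a large excursion, in terms of the next one -/
theorem record_ge {r n : ℕ} (hr : IsRec r) (hrn : r ≤ n) (h : ∀ m, r < m → m ≤ n → ¬ IsRec m)
    {V : ℕ} (hV : t r ≤ V) : (n : ℝ) ^ (Real.log 3 / Real.log 2) ≤ 3 * (V + 1) := by
  have hn : 1 ≤ n := hr.1.trans hrn
  obtain ⟨a, ha1, ha2, ha3⟩ := exists_pow hn
  have h2a : 2 ≤ 2 ^ a := by
    calc 2 = 2 ^ 1 := rfl
      _ ≤ 2 ^ a := Nat.pow_le_pow_right (by norm_num) ha1
  have h1 := (mersenne_t a).trans ((le_record hr h (2 ^ a - 1) (by omega) (by omega)).trans hV)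
  have h2 : 3 ^ a - 1 ≤ V := by exact_mod_cast h1
  have h3 : (3 : ℝ) ^ a ≤ V + 1 := by
    have : 3 ^ a ≤ V + 1 := by omega
    exact_mod_cast this
  have := pow_le ha3
  linarith

/-- The number `n` gets to `y` within `B log n` steps, all terms being at most `V` until then. -/
def Desc (B y V : ℝ) (n : ℕ) : Prop :=
  ∃ m : ℕ, (m : ℝ) ≤ B * Real.log n ∧ ((T^[m] n : ℕ) : ℝ) ≤ y ∧ ∀ j ≤ m, ((T^[j] n : ℕ) : ℝ) ≤ V

/-- A record holder `n` does not descend below `V`, `V` smaller than the excursion of a Mersenne number. -/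
theorem not_desc {B y V : ℝ} {n a : ℕ} (hn : IsRec n) (hy : y < n) (ha1 : 1 ≤ a) (ha : 2 ^ a ≤ n + 1)
    (hV : V < 3 ^ a - 1) : ¬ Desc B y V n := by
  rintro ⟨m, -, hm, hj⟩
  have h2a : 2 ≤ 2 ^ a := by
    calc 2 = 2 ^ 1 := rfl
      _ ≤ 2 ^ a := Nat.pow_le_pow_right (by norm_num) ha1
  have h1 : T^[m] n < n := by
    have : ((T^[m] n : ℕ) : ℝ) < n := lt_of_le_of_lt hm hy
    exact_mod_cast this
  have h2 : t (T^[m] n) < t n := hn.2 _ (iter_pos hn.1 m) h1
  have h3 : ∀ j ≤ m, T^[j] n ≤ ⌊V⌋₊ := fun j hj' => Nat.le_floor (hj j hj')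
  have h4 := t_le h3
  have h5 : t n ≤ (⌊V⌋₊ : ℕ) := by
    rcases le_max_iff.1 h4 with h | h
    · exact h
    · exact absurd h (not_le.2 h2)
  have h6 : t (2 ^ a - 1) ≤ t n := by
    rcases Nat.lt_or_ge (2 ^ a - 1) n with h | h
    · exact (hn.2 _ (by omega) h).le
    · have : 2 ^ a - 1 = n := by omega
      rw [this]
  have h7 := (mersenne_t a).trans (h6.trans h5)
  have h8 : 3 ^ a - 1 ≤ ⌊V⌋₊ := by exact_mod_cast h7
  have h9 : 1 ≤ 3 ^ a := Nat.one_le_pow _ _ (by norm_num)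
  have hV0 : 0 ≤ V := le_trans (by positivity) (hj 0 (Nat.zero_le _))
  have h10 : ((3 ^ a - 1 : ℕ) : ℝ) ≤ V := le_trans (by exact_mod_cast h8) (Nat.floor_le hV0)
  rw [Nat.cast_sub h9] at h10
  push_cast at h10
  linarith

theorem rpow_ge {x : ℝ} {n a : ℕ} (hx : 0 < x) (hn : x / 2 < n) (ha : n + 1 < 2 ^ (a + 1)) :
    (x / 4) ^ (Real.log 3 / Real.log 2) ≤ 3 ^ a := by
  have hl2 : 0 < Real.log 2 := Real.log_pos (by norm_num)
  have hl3 : 0 < Real.log 3 := Real.log_pos (by norm_num)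
  have h1 : x / 4 ≤ 2 ^ a := by
    have : (n : ℝ) ≤ 2 ^ (a + 1) := by
      have : n ≤ 2 ^ (a + 1) := by omega
      exact_mod_cast this
    rw [pow_succ] at this
    linarith
  calc (x / 4) ^ (Real.log 3 / Real.log 2) ≤ ((2 : ℝ) ^ a) ^ (Real.log 3 / Real.log 2) :=
        Real.rpow_le_rpow (by positivity) h1 (by positivity)
    _ = 3 ^ a := by
        rw [Real.rpow_def_of_pos (by positivity), Real.log_pow]
        have : (a : ℝ) * Real.log 2 * (Real.log 3 / Real.log 2) = Real.log (3 ^ a) := by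
          rw [Real.log_pow]; field_simp
        rw [this, Real.exp_log (by positivity)]

/-- eventually `x ^ (3/2)` is smaller than the excursion of the Mersenne number -/
theorem exists_big : ∃ X₀ : ℝ, 4 ≤ X₀ ∧ ∀ x : ℝ, X₀ ≤ x →
    x ^ (3 / 2 : ℝ) < (x / 4) ^ (Real.log 3 / Real.log 2) - 1 := by
  have hl2 : 0 < Real.log 2 := Real.log_pos (by norm_num)
  have h158 : (1.58 : ℝ) ≤ Real.log 3 / Real.log 2 := by
    rw [le_div_iff₀ hl2]
    have := Real.log_two_lt_d9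
    have := Real.log_three_gt_d9
    linarith
  obtain ⟨X₁, hX₁⟩ := Filter.eventually_atTop.1
    ((tendsto_rpow_atTop (show (0 : ℝ) < 0.08 by norm_num)).eventually_ge_atTop (2 * 4 ^ (1.58 : ℝ) + 1))
  refine ⟨max X₁ 4, le_max_right _ _, fun x hx => ?_⟩
  have hx1 := (le_max_left _ _).trans hx
  have hx4 := (le_max_right _ _).trans hx
  have hx0 : 0 < x := by linarith
  have h1 := hX₁ x hx1
  have h2 : (x / 4) ^ (1.58 : ℝ) ≤ (x / 4) ^ (Real.log 3 / Real.log 2) :=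
    Real.rpow_le_rpow_of_exponent_le (by linarith) h158
  have h3 : (x / 4) ^ (1.58 : ℝ) * 4 ^ (1.58 : ℝ) = x ^ (3 / 2 : ℝ) * x ^ (0.08 : ℝ) := by
    rw [← Real.mul_rpow (by positivity) (by norm_num), ← Real.rpow_add hx0]
    norm_num
  have h4 : 1 ≤ x ^ (3 / 2 : ℝ) := Real.one_le_rpow (by linarith) (by norm_num)
  have h5 : (0 : ℝ) < 4 ^ (1.58 : ℝ) := by positivity
  have h6 : x ^ (3 / 2 : ℝ) * (2 * 4 ^ (1.58 : ℝ) + 1) ≤ x ^ (3 / 2 : ℝ) * x ^ (0.08 : ℝ) :=
    mul_le_mul_of_nonneg_left h1 (by positivity)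
  rw [← h3] at h6
  have h7 : 2 * x ^ (3 / 2 : ℝ) * 4 ^ (1.58 : ℝ) < (x / 4) ^ (1.58 : ℝ) * 4 ^ (1.58 : ℝ) := by
    nlinarith
  have h8 := lt_of_mul_lt_mul_right h7 h5.le
  linarith

theorem entropy_ge {H : ℝ} (hH : H = Real.binEntropy (Real.log 2 / Real.log 3) / Real.log 2) :
    0.7 < H := by
  have hl2 : 0 < Real.log 2 := Real.log_pos (by norm_num)
  have hl3 : 0 < Real.log 3 := Real.log_pos (by norm_num)
  set p := Real.log 2 / Real.log 3 with hp
  have h1 : p < 0.631 := by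
    rw [hp, div_lt_iff₀ hl3]
    have := Real.log_two_lt_d9
    have := Real.log_three_gt_d9
    linarith
  have h2 : 0.63 < p := by
    rw [hp, lt_div_iff₀ hl3]
    have := Real.log_two_gt_d9
    have := Real.log_three_lt_d9
    linarith
  have hc := Real.strictConcave_binEntropy.concaveOn.2 (show (1 / 2 : ℝ) ∈ Set.Icc 0 1 by norm_num)
    (show (1 : ℝ) ∈ Set.Icc 0 1 by norm_num) (show 0 ≤ 2 - 2 * p by linarith)
    (show 0 ≤ 2 * p - 1 by linarith) (by ring)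
  have h3 : (2 - 2 * p) • (1 / 2 : ℝ) + (2 * p - 1) • (1 : ℝ) = p := by
    simp only [smul_eq_mul]; ring
  rw [h3] at hc
  have h4 : Real.binEntropy (1 / 2) = Real.log 2 := by
    rw [one_div]; exact Real.binEntropy_two_inv
  rw [h4, Real.binEntropy_one] at hc
  simp only [smul_eq_mul, mul_zero, add_zero] at hc
  rw [hH, lt_div_iff₀ hl2]
  nlinarith

/-- The number of the record holders up to `x`, from the number of the exceptions. -/
theorem count_recs {B c C H : ℝ} (hC : 0 < C) (hH : 0.7 < H) (hc : 1 - H < c)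
    (hL : ∀ x y V : ℝ, 2 ≤ x → 1 ≤ y → x ≤ V →
      cnt (fun n => ¬ Desc B y V n) x ≤ C * Real.log x ^ 4 * (x ^ 2 / V + x / y ^ c)) :
    ∃ η : ℝ, η < H ∧ ∃ K : ℝ, 0 < K ∧ ∀ x : ℝ, 1 ≤ x → cnt IsRec x ≤ K * x ^ η := by
  set δ := min ((H - (1 - c)) / 2) 0.1 with hδ
  have hδ0 : 0 < δ := lt_min (by linarith) (by norm_num)
  have hδ1 : δ ≤ (H - (1 - c)) / 2 := min_le_left _ _
  have hδ2 : δ ≤ 0.1 := min_le_right _ _
  set η := max (1 - c + δ) (0.6 : ℝ) with hη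
  have hη0 : 0 < η := lt_of_lt_of_le (by norm_num) (le_max_right _ _)
  have hηH : η < H := max_lt (by linarith) (by linarith)
  obtain ⟨K₂, hK₂, h2⟩ := log_pow_le hδ0 4
  obtain ⟨X₀, hX4, hX₀⟩ := exists_big
  have hblk : ∀ x : ℝ, 2 ≤ x → blk IsRec x ≤ (C * (1 + 4 ^ c) * K₂ + (X₀ + 1)) * x ^ η := by
    intro x hx
    have hx0 : 0 < x := by linarith
    have hxη : 1 ≤ x ^ η := Real.one_le_rpow (by linarith) hη0.le
    have hlog : 0 ≤ Real.log x := Real.log_nonneg (by linarith)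
    have hA2 : 0 ≤ C * (1 + 4 ^ c) * K₂ := by positivity
    by_cases h4 : x < X₀
    · have hsub : {n : ℕ | x / 2 < n ∧ (n : ℝ) ≤ x ∧ IsRec n} ⊆ Set.Iic ⌊X₀⌋₊ := by
        rintro n ⟨-, hn, -⟩
        exact Nat.le_floor (hn.trans h4.le)
      have h5 := Set.ncard_le_ncard hsub (Set.finite_Iic _)
      have h6 : (Set.Iic ⌊X₀⌋₊ : Set ℕ).ncard = ⌊X₀⌋₊ + 1 := by
        rw [← Nat.card_coe_set_eq, Nat.card_eq_fintype_card]; simp
      rw [h6] at h5
      have h7 : blk IsRec x ≤ ⌊X₀⌋₊ + 1 := by unfold blk; exact_mod_cast h5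
      have h8 : (⌊X₀⌋₊ : ℝ) ≤ X₀ := Nat.floor_le (by linarith)
      have h9 : blk IsRec x ≤ X₀ + 1 := by linarith
      nlinarith
    · push Not at h4
      have hx4 : 4 ≤ x := hX4.trans h4
      set V := x ^ (3 / 2 : ℝ) with hV
      have hxV : x ≤ V := by
        calc x = x ^ (1 : ℝ) := (Real.rpow_one x).symm
          _ ≤ V := Real.rpow_le_rpow_of_exponent_le (by linarith) (by norm_num)
      have hsub : {n : ℕ | x / 2 < n ∧ (n : ℝ) ≤ x ∧ IsRec n} ⊆
          {n : ℕ | 1 ≤ n ∧ (n : ℝ) ≤ x ∧ ¬ Desc B (x / 4) V n} := by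
        rintro n ⟨h5, h6, h7⟩
        obtain ⟨a, ha1, ha2, ha3⟩ := exists_pow h7.1
        refine ⟨h7.1, h6, not_desc h7 (by linarith) ha1 ha2 ?_⟩
        have h8 := hX₀ x h4
        have h9 := rpow_ge hx0 h5 ha3
        linarith
      have h5 := Set.ncard_le_ncard hsub (fin_le _ _)
      have h6 : blk IsRec x ≤ cnt (fun n => ¬ Desc B (x / 4) V n) x := by
        unfold blk cnt
        exact_mod_cast h5
      have h9 := hL x (x / 4) V hx (by linarith) hxV
      have h12 : x / (x / 4) ^ c = 4 ^ c * x ^ (1 - c) := by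
        rw [Real.div_rpow hx0.le (by norm_num), Real.rpow_sub hx0, Real.rpow_one]
        have := (Real.rpow_pos_of_pos hx0 c).ne'
        have h4c : (4 : ℝ) ^ c ≠ 0 := (Real.rpow_pos_of_pos (by norm_num) c).ne'
        field_simp
      have h13 : x ^ 2 / V = x ^ (1 / 2 : ℝ) := by
        rw [hV, ← Real.rpow_natCast x 2, ← Real.rpow_sub hx0]
        norm_num
      have h14 := h2 x (by linarith)
      have h15 : x ^ δ * x ^ (1 - c) ≤ x ^ η := by
        rw [← Real.rpow_add hx0]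
        apply Real.rpow_le_rpow_of_exponent_le (by linarith)
        have := le_max_left (1 - c + δ) (0.6 : ℝ)
        linarith
      have h16 : x ^ δ * x ^ (1 / 2 : ℝ) ≤ x ^ η := by
        rw [← Real.rpow_add hx0]
        apply Real.rpow_le_rpow_of_exponent_le (by linarith)
        have := le_max_right (1 - c + δ) (0.6 : ℝ)
        linarith
      have h17 : C * Real.log x ^ 4 * (x ^ 2 / V + x / (x / 4) ^ c) ≤ C * (1 + 4 ^ c) * K₂ * x ^ η := by
        rw [h12, h13]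
        calc C * Real.log x ^ 4 * (x ^ (1 / 2 : ℝ) + 4 ^ c * x ^ (1 - c))
            ≤ C * (K₂ * x ^ δ) * (x ^ (1 / 2 : ℝ) + 4 ^ c * x ^ (1 - c)) := by gcongr
          _ = C * K₂ * (x ^ δ * x ^ (1 / 2 : ℝ)) + C * K₂ * 4 ^ c * (x ^ δ * x ^ (1 - c)) := by ring
          _ ≤ C * K₂ * x ^ η + C * K₂ * 4 ^ c * x ^ η := by gcongr
          _ = C * (1 + 4 ^ c) * K₂ * x ^ η := by ring
      nlinarith
  obtain ⟨K, hK, h⟩ := dyadic hη0 (by positivity) hblk
  exact ⟨η, hηH, K, hK, h⟩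

end Pool.Agent.X16.RC
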